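import Mathlib

/-!
# Strong o-conjugacy is not transitive, not even in regular semigroups

For `L : ℕ → ℕ` let `Alg L` be the monounary algebra consisting of a ray and of branches `m`
of length `L m`, all of them attached to the ray at level `0`. For `L m = 2 m + 1` and
`L m = 2 m` these algebras `A` and `C` admit homomorphisms in both directions, hence both are
retracts of their disjoint union `B`; but `A` and `C` have no isomorphic retracts. Transported to
`ℕ` this gives `a ∼ b ∼ c` but not `a ∼ c` in the full transformation semigroup of `ℕ`, which is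
regular.
-/

set_option autoImplicit false

namespace Pool.Agent.Results.MP_d6d41b_al.NotTransitive

/-- `S¹`, as a subset of the semigroup `WithOne S` (`S` with a new identity element adjoined): all
elements of `S`, and the new identity element if `S` has no identity element. So `S¹ = S` if `S`
has an identity element. -/
def InOne {S : Type} [Semigroup S] (g : WithOne S) : Prop :=
  (∃ s : S, g = (s : WithOne S)) ∨ (g = 1 ∧ ¬ ∃ e : S, ∀ s : S, e * s = s ∧ s * e = s)

/-- `a` and `b` are strongly o-conjugate: there are mutually inverse `g, h ∈ S¹` with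
`a g = g b` and `b h = h a`. -/
def StronglyOConj {S : Type} [Semigroup S] (a b : S) : Prop :=
  ∃ g h : WithOne S, InOne g ∧ InOne h ∧ g * h * g = g ∧ h * g * h = h ∧
    (a : WithOne S) * g = g * (b : WithOne S) ∧ (b : WithOne S) * h = h * (a : WithOne S)

lemma strongly_iff {S : Type} [Monoid S] (a b : S) : StronglyOConj a b ↔
    ∃ g h : S, g * h * g = g ∧ h * g * h = h ∧ a * g = g * b ∧ b * h = h * a := by
  have key : ∀ g : WithOne S, InOne g → ∃ s : S, g = (s : WithOne S) := by
    intro g hg
    rcases hg with hg | ⟨_, hg⟩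
    · exact hg
    · exact absurd ⟨(1 : S), fun s => ⟨one_mul s, mul_one s⟩⟩ hg
  constructor
  · rintro ⟨g', h', hg, hh, h1, h2, h3, h4⟩
    obtain ⟨g, rfl⟩ := key g' hg
    obtain ⟨h, rfl⟩ := key h' hh
    refine ⟨g, h, ?_, ?_, ?_, ?_⟩
    · exact_mod_cast h1
    · exact_mod_cast h2
    · exact_mod_cast h3
    · exact_mod_cast h4
  · rintro ⟨g, h, h1, h2, h3, h4⟩
    refine ⟨g, h, Or.inl ⟨g, rfl⟩, Or.inl ⟨h, rfl⟩, ?_, ?_, ?_, ?_⟩
    · exact_mod_cast h1
    · exact_mod_cast h2
    · exact_mod_cast h3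
    · exact_mod_cast h4

/-- a ray with branches of length `L m`, `m = 0, 1, ...`, all attached at level `0` -/
abbrev Alg (L : ℕ → ℕ) : Type := {p : ℤ × ℕ // -p.1 ≤ (L p.2 : ℤ)}

/-- the operation of `Alg L` -/
def step (L : ℕ → ℕ) (x : Alg L) : Alg L :=
  ⟨(x.1.1 + 1, if x.1.1 + 1 < 0 then x.1.2 else 0), by
    have := x.2
    split_ifs with h
    · simp only; omega
    · simp only; omega⟩

variable {L L' : ℕ → ℕ}

lemma iter_level (x : Alg L) (j : ℕ) : ((step L)^[j] x).1.1 = x.1.1 + j := by
  induction j with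
  | zero => simp
  | succ j ih =>
    rw [Function.iterate_succ_apply']
    simp only [step, ih]
    push_cast
    ring

lemma iter_neg (x : Alg L) (j : ℕ) (h : x.1.1 + j < 0) : ((step L)^[j] x).1.2 = x.1.2 := by
  induction j with
  | zero => simp
  | succ j ih =>
    rw [Function.iterate_succ_apply']
    have h' : x.1.1 + j + 1 < 0 := by push_cast at h; linarith
    simp only [step, iter_level]
    rw [if_pos h', ih (by omega)]

lemma iter_nonneg (x : Alg L) (j : ℕ) (hj : 1 ≤ j) (h : 0 ≤ x.1.1 + j) :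
    ((step L)^[j] x).1.2 = 0 := by
  obtain ⟨i, rfl⟩ : ∃ i, j = i + 1 := ⟨j - 1, by omega⟩
  rw [Function.iterate_succ_apply']
  simp only [step, iter_level]
  rw [if_neg (by push_cast at h; omega)]

lemma alg_ext {x y : Alg L} (h1 : x.1.1 = y.1.1) (h2 : x.1.2 = y.1.2) : x = y :=
  Subtype.ext (Prod.ext h1 h2)

/-- the origin -/
def o (L : ℕ → ℕ) : Alg L := ⟨(0, 0), by simp⟩

/-- the leaf of branch `m` -/
def leaf (L : ℕ → ℕ) (m : ℕ) : Alg L := ⟨(-(L m : ℤ), m), by simp⟩

lemma hom_level {g : Alg L → Alg L'} (hg : ∀ x, g (step L x) = step L' (g x)) (x : Alg L) :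
    (g x).1.1 = x.1.1 + (g (o L)).1.1 := by
  have hit : ∀ j x, g ((step L)^[j] x) = (step L')^[j] (g x) := by
    intro j
    exact (Function.Semiconj.iterate_right (f := g) (fun x => hg x) j)
  obtain ⟨i, j, hi, hj, hij⟩ : ∃ i j : ℕ, 1 ≤ i ∧ 1 ≤ j ∧ x.1.1 + i = j := by
    refine ⟨(1 - x.1.1).toNat + 1, (x.1.1 + ((1 - x.1.1).toNat + 1)).toNat, by omega, ?_, ?_⟩
    · omega
    · push_cast
      omega
  have e1 : (step L)^[i] x = (step L)^[j] (o L) := by
    apply alg_ext
    · rw [iter_level, iter_level, hij]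
      simp [o]
    · rw [iter_nonneg x i hi (by omega), iter_nonneg (o L) j hj (by simp [o])]
  have e2 := congrArg (fun y => (g y).1.1) e1
  simp only [hit, iter_level] at e2
  omega

lemma hom_shift_nonneg (hL : ∀ K : ℕ, ∃ m, K < L m) {g : Alg L → Alg L'}
    (hg : ∀ x, g (step L x) = step L' (g x)) : 0 ≤ (g (o L)).1.1 := by
  by_contra hneg
  rw [not_le] at hneg
  have hit : ∀ j x, g ((step L)^[j] x) = (step L')^[j] (g x) := by
    intro j
    exact (Function.Semiconj.iterate_right (f := g) (fun x => hg x) j)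
  obtain ⟨m, hm⟩ := hL (L' (g (o L)).1.2)
  have e1 : (step L)^[L m] (leaf L m) = o L := by
    apply alg_ext
    · rw [iter_level]
      simp [leaf, o]
    · rw [iter_nonneg _ _ (by omega) (by simp [leaf])]
      rfl
  have e2 : g (o L) = (step L')^[L m] (g (leaf L m)) := by rw [← hit, e1]
  have e3 : (g (leaf L m)).1.1 = -(L m : ℤ) + (g (o L)).1.1 := hom_level hg _
  have e4 : (g (o L)).1.2 = (g (leaf L m)).1.2 := by
    conv_lhs => rw [e2]
    apply iter_neg
    rw [e3]
    omega
  have e5 := (g (leaf L m)).2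
  rw [← e4, e3] at e5
  omega

/-- lengths of the branches of `A` -/
def LA (m : ℕ) : ℕ := 2 * m + 1
/-- lengths of the branches of `C` -/
def LC (m : ℕ) : ℕ := 2 * m

/-- no isomorphic retracts -/
lemma no_common (g : Alg LC → Alg LA) (h : Alg LA → Alg LC)
    (hg : ∀ x, g (step LC x) = step LA (g x)) (hh : ∀ x, h (step LA x) = step LC (h x))
    (h1 : ∀ x, g (h (g x)) = g x) (_h2 : ∀ x, h (g (h x)) = h x) : False := by
  have s1 : 0 ≤ (g (o LC)).1.1 :=
    hom_shift_nonneg (fun K => ⟨K + 1, by simp only [LC]; omega⟩) hg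
  have s2 : 0 ≤ (h (o LA)).1.1 :=
    hom_shift_nonneg (fun K => ⟨K + 1, by simp only [LA]; omega⟩) hh
  have s3 : (g (o LC)).1.1 + (h (o LA)).1.1 = 0 := by
    have hq : (g (h (g (o LC)))).1.1 = (g (o LC)).1.1 := by rw [h1]
    rw [hom_level hg (h (g (o LC))), hom_level hh (g (o LC))] at hq
    omega
  have lg : ∀ x, (g x).1.1 = x.1.1 := fun x => by rw [hom_level hg]; omega
  have lh : ∀ x, (h x).1.1 = x.1.1 := fun x => by rw [hom_level hh]; omega
  -- a leaf fixed by `g ∘ h`
  set m1 : ℕ := (g (h (leaf LA 0))).1.2 with hm1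
  have hit : ∀ j x, g (h ((step LA)^[j] x)) = (step LA)^[j] (g (h x)) := by
    intro j x
    have a1 : h ((step LA)^[j] x) = (step LC)^[j] (h x) :=
      (Function.Semiconj.iterate_right (f := h) (fun x => hh x) j) x
    have a2 : g ((step LC)^[j] (h x)) = (step LA)^[j] (g (h x)) :=
      (Function.Semiconj.iterate_right (f := g) (fun x => hg x) j) (h x)
    rw [a1, a2]
  have hu1 : (g (h (leaf LA 0))).1.1 = -1 := by
    rw [lg, lh]
    simp [leaf, LA]
  have hu : (step LA)^[2 * m1] (leaf LA m1) = g (h (leaf LA 0)) := by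
    apply alg_ext
    · rw [iter_level, hu1]
      simp only [leaf, LA]
      push_cast
      ring
    · rw [iter_neg]
      · rfl
      · simp only [leaf, LA]
        push_cast
        omega
  have hfix : (g (h (leaf LA m1))).1.2 = m1 := by
    have e1 : (step LA)^[2 * m1] (g (h (leaf LA m1))) = g (h (leaf LA 0)) := by
      rw [← hit, hu, h1]
    have e2 : ((step LA)^[2 * m1] (g (h (leaf LA m1)))).1.2 = m1 := by rw [e1]
    rw [iter_neg _ _ (by rw [lg, lh]; simp only [leaf, LA]; push_cast; omega)] at e2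
    exact e2
  -- its image in `C` is not a leaf
  have hz1 : (h (leaf LA m1)).1.1 = -(2 * (m1 : ℤ) + 1) := by
    rw [lh]
    simp only [leaf, LA]
    push_cast
    ring
  have hz2 := (h (leaf LA m1)).2
  rw [hz1] at hz2
  simp only [LC] at hz2
  push_cast at hz2
  let z' : Alg LC := ⟨(-(2 * (m1 : ℤ) + 2), (h (leaf LA m1)).1.2), by
    simp only [LC]; push_cast; omega⟩
  have hz' : step LC z' = h (leaf LA m1) := by
    apply alg_ext
    · simp only [step, z', hz1]
      ring
    · simp only [step, z']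
      rw [if_pos (by omega)]
  have e3 := hg z'
  rw [hz'] at e3
  have e4 : (g z').1.1 = -(2 * (m1 : ℤ) + 2) := lg z'
  have e5 : (g z').1.2 = m1 := by
    have := congrArg (fun y => y.1.2) e3
    simp only [step] at this
    rw [if_pos (by rw [e4]; omega)] at this
    rw [← this, hfix]
  have e6 := (g z').2
  rw [e4, e5] at e6
  simp only [LA] at e6
  push_cast at e6
  omega

/-- the homomorphism from `C` to `A` -/
def phi (x : Alg LC) : Alg LA := ⟨x.1, by
  have := x.2
  simp only [LC, LA] at *
  push_cast at *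
  omega⟩

/-- the homomorphism from `A` to `C` -/
def psi (x : Alg LA) : Alg LC := ⟨(x.1.1, if x.1.1 < 0 then x.1.2 + 1 else 0), by
  have := x.2
  simp only [LC, LA] at *
  push_cast at *
  split_ifs <;> push_cast <;> omega⟩

lemma phi_hom (x : Alg LC) : phi (step LC x) = step LA (phi x) := rfl

lemma psi_hom (x : Alg LA) : psi (step LA x) = step LC (psi x) := by
  apply alg_ext
  · rfl
  · simp only [psi, step]
    by_cases h : x.1.1 + 1 < 0
    · have h' : x.1.1 < 0 := by omega
      simp [h, h']
    · simp [h]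

instance (L : ℕ → ℕ) : Countable (Alg L) := by
  unfold Alg
  infer_instance

instance (L : ℕ → ℕ) : Infinite (Alg L) := by
  refine Infinite.of_injective (fun n : ℕ => (⟨((n : ℤ), 0), by simp only; omega⟩ : Alg L)) ?_
  intro m n h
  have := congrArg (fun y : Alg L => y.1.1) h
  simpa using this

/-- transport of an operation to `ℕ` -/
def tr {X : Type} (u : X ≃ ℕ) (f : X → X) : Function.End ℕ := fun n => u (f (u.symm n))

/-- two algebras with mutually inverse homomorphisms -/
lemma conj_of {X Y : Type} (u : X ≃ ℕ) (w : Y ≃ ℕ) (f : X → X) (k : Y → Y) (g : Y → X) (h : X → Y)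
    (hg : ∀ y, g (k y) = f (g y)) (hh : ∀ x, h (f x) = k (h x))
    (h1 : ∀ y, g (h (g y)) = g y) (h2 : ∀ x, h (g (h x)) = h x) :
    StronglyOConj (tr u f) (tr w k) := by
  rw [strongly_iff]
  refine ⟨fun n => u (g (w.symm n)), fun n => w (h (u.symm n)), ?_, ?_, ?_, ?_⟩
  · funext n
    change u (g (w.symm (w (h (u.symm (u (g (w.symm n)))))))) = u (g (w.symm n))
    simp [h1]
  · funext n
    change w (h (u.symm (u (g (w.symm (w (h (u.symm n)))))))) = w (h (u.symm n))
    simp [h2]
  · funext n
    change u (f (u.symm (u (g (w.symm n))))) = u (g (w.symm (w (k (w.symm n)))))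
    simp [hg]
  · funext n
    change w (k (w.symm (w (h (u.symm n))))) = w (h (u.symm (u (f (u.symm n)))))
    simp [hh]

/-- and conversely -/
lemma of_conj {X Y : Type} (u : X ≃ ℕ) (w : Y ≃ ℕ) (f : X → X) (k : Y → Y)
    (H : StronglyOConj (tr u f) (tr w k)) : ∃ (g : Y → X) (h : X → Y),
      (∀ y, g (k y) = f (g y)) ∧ (∀ x, h (f x) = k (h x)) ∧
      (∀ y, g (h (g y)) = g y) ∧ (∀ x, h (g (h x)) = h x) := by
  rw [strongly_iff] at H
  obtain ⟨g, h, h1, h2, h3, h4⟩ := H
  refine ⟨fun y => u.symm (g (w y)), fun x => w.symm (h (u x)), ?_, ?_, ?_, ?_⟩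
  · intro y
    have := congrFun h3 (w y)
    change u (f (u.symm (g (w y)))) = g (w (k (w.symm (w y)))) at this
    simp only [Equiv.symm_apply_apply] at this
    change u.symm (g (w (k y))) = f (u.symm (g (w y)))
    rw [← this]
    simp
  · intro x
    have := congrFun h4 (u x)
    change w (k (w.symm (h (u x)))) = h (u (f (u.symm (u x)))) at this
    simp only [Equiv.symm_apply_apply] at this
    change w.symm (h (u (f x))) = k (w.symm (h (u x)))
    rw [← this]
    simp
  · intro y
    have := congrFun h1 (w y)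
    change g (h (g (w y))) = g (w y) at this
    simp [this]
  · intro x
    have := congrFun h2 (u x)
    change h (g (h (u x))) = h (u x) at this
    simp [this]

/-- **Strong o-conjugacy is not transitive (Q1), not even in regular semigroups (Q2).** The full
transformation semigroup of `ℕ` (all maps `ℕ → ℕ` under composition) is regular, and it has
elements `a, b, c` such that `a, b` and `b, c` are strongly o-conjugate but `a, c` are not. -/
theorem result :
    (∀ x : Function.End ℕ, ∃ y : Function.End ℕ, x = x * y * x) ∧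
    (∃ a b c : Function.End ℕ, StronglyOConj a b ∧ StronglyOConj b c ∧ ¬ StronglyOConj a c) ∧
    (¬ ∀ (S : Type) [Semigroup S], ∀ a b c : S,
      StronglyOConj a b → StronglyOConj b c → StronglyOConj a c) ∧
    (¬ ∀ (S : Type) [Semigroup S], (∀ x : S, ∃ y : S, x = x * y * x) → ∀ a b c : S,
      StronglyOConj a b → StronglyOConj b c → StronglyOConj a c) := by
  have hreg : ∀ x : Function.End ℕ, ∃ y : Function.End ℕ, x = x * y * x := by
    intro x
    refine ⟨Function.invFun x, ?_⟩
    funext n
    change x n = x (Function.invFun x (x n))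
    exact (Function.invFun_eq (f := (x : ℕ → ℕ)) ⟨n, rfl⟩).symm
  have hex : ∃ a b c : Function.End ℕ,
      StronglyOConj a b ∧ StronglyOConj b c ∧ ¬ StronglyOConj a c := by
    obtain ⟨u⟩ : Nonempty (Alg LA ≃ ℕ) := nonempty_equiv_of_countable
    obtain ⟨v⟩ : Nonempty ((Alg LA ⊕ Alg LC) ≃ ℕ) := nonempty_equiv_of_countable
    obtain ⟨w⟩ : Nonempty (Alg LC ≃ ℕ) := nonempty_equiv_of_countable
    refine ⟨tr u (step LA), tr v (Sum.map (step LA) (step LC)), tr w (step LC), ?_, ?_, ?_⟩
    · refine conj_of u v _ _ (Sum.elim id phi) Sum.inl ?_ ?_ ?_ ?_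
      · rintro (x | x)
        · rfl
        · exact phi_hom x
      · intro x
        rfl
      · rintro (x | x) <;> rfl
      · intro x
        rfl
    · refine conj_of v w _ _ Sum.inr (Sum.elim psi id) ?_ ?_ ?_ ?_
      · intro x
        rfl
      · rintro (x | x)
        · exact psi_hom x
        · rfl
      · intro x
        rfl
      · rintro (x | x) <;> rfl
    · intro H
      obtain ⟨g, h, hg, hh, h1, h2⟩ := of_conj u w _ _ H
      exact no_common g h hg hh h1 h2
  obtain ⟨a, b, c, h1, h2, h3⟩ := hex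
  refine ⟨hreg, ⟨a, b, c, h1, h2, h3⟩, fun H => h3 (H _ a b c h1 h2), fun H => h3 (H _ hreg a b c h1 h2)⟩

end Pool.Agent.Results.MP_d6d41b_al.NotTransitive
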